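import Mathlib

namespace Q8.StabB

open Quaternion Matrix Filter

/-- `x : ℝ → ℍⁿ` is a solution of `∑_{k ≤ ℓ} A_k x^{(k)} = 0`. -/
def IsSolution (ℓ n : ℕ) (A : ℕ → Matrix (Fin n) (Fin n) ℍ[ℝ]) (x : ℝ → Fin n → ℍ[ℝ]) : Prop :=
  ContDiff ℝ ℓ x ∧ ∀ t, ∑ k ∈ Finset.range (ℓ + 1), (A k).mulVec (iteratedDeriv k x t) = 0

/-- The system is bounded: each of its solutions is bounded on `ℝ`. -/
def IsBoundedSystem (ℓ n : ℕ) (A : ℕ → Matrix (Fin n) (Fin n) ℍ[ℝ]) : Prop :=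
  ∀ x, IsSolution ℓ n A x → ∃ M : ℝ, ∀ t, ‖x t‖ ≤ M

variable {n : ℕ}

noncomputable def F (lam : ℍ[ℝ]) (c d : Fin n → ℍ[ℝ]) : ℝ → Fin n → ℍ[ℝ] :=
  fun t i => (c i + t • d i) * NormedSpace.exp (t • lam)

noncomputable def seqC (lam : ℍ[ℝ]) (c d : Fin n → ℍ[ℝ]) : ℕ → Fin n → ℍ[ℝ]
  | 0 => c
  | (k + 1) => fun i => seqC lam c d k i * lam + d i * lam ^ k

theorem hasDerivAt_F (lam : ℍ[ℝ]) (c d : Fin n → ℍ[ℝ]) (t : ℝ) :
    HasDerivAt (F lam c d) (F lam (fun i => c i * lam + d i) (fun i => d i * lam) t) t := by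
  rw [hasDerivAt_pi]
  intro i
  have h1 : HasDerivAt (fun u : ℝ => c i + u • d i) (d i) t := by
    have := ((hasDerivAt_id t).smul_const (d i)).const_add (c i)
    simpa using this
  have h2 := hasDerivAt_exp_smul_const' (𝕂 := ℝ) (𝔸 := ℍ[ℝ]) lam t
  have h3 := h1.mul h2
  refine h3.congr_deriv ?_
  simp only [F]
  rw [← mul_assoc, ← add_mul]
  congr 1
  rw [add_mul, smul_mul_assoc]
  abel

theorem iteratedDeriv_F (lam : ℍ[ℝ]) (c d : Fin n → ℍ[ℝ]) (k : ℕ) :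
    iteratedDeriv k (F lam c d) = F lam (seqC lam c d k) (fun i => d i * lam ^ k) := by
  induction k with
  | zero => simp [seqC]
  | succ k ih =>
    rw [iteratedDeriv_succ, ih]
    funext t
    rw [(hasDerivAt_F _ _ _ t).deriv]
    simp only [seqC, pow_succ, mul_assoc]

theorem contDiff_F (lam : ℍ[ℝ]) (c d : Fin n → ℍ[ℝ]) (ℓ : ℕ) : ContDiff ℝ ℓ (F lam c d) := by
  have := contDiff_of_differentiable_iteratedDeriv (𝕜 := ℝ) (n := (ℓ : ℕ∞)) (f := F lam c d)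
    (fun m _ => by
      rw [iteratedDeriv_F]
      exact fun t => (hasDerivAt_F _ _ _ t).differentiableAt)
  exact_mod_cast this

theorem mulVec_F (A : Matrix (Fin n) (Fin n) ℍ[ℝ]) (lam : ℍ[ℝ]) (c d : Fin n → ℍ[ℝ]) (t : ℝ) :
    A.mulVec (F lam c d t) = F lam (A.mulVec c) (A.mulVec d) t := by
  funext i
  simp only [F, Matrix.mulVec, dotProduct]
  rw [Finset.smul_sum, ← Finset.sum_add_distrib, Finset.sum_mul]
  refine Finset.sum_congr rfl fun j _ => ?_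
  rw [← mul_smul_comm, ← mul_add, mul_assoc]

theorem sum_F {ι : Type*} (s : Finset ι) (lam : ℍ[ℝ]) (c d : ι → Fin n → ℍ[ℝ]) (t : ℝ) :
    ∑ k ∈ s, F lam (c k) (d k) t = F lam (∑ k ∈ s, c k) (∑ k ∈ s, d k) t := by
  funext i
  simp only [F, Finset.sum_apply]
  rw [Finset.smul_sum, ← Finset.sum_add_distrib, Finset.sum_mul]

theorem isSolution_F {ℓ : ℕ} {A : ℕ → Matrix (Fin n) (Fin n) ℍ[ℝ]} {lam : ℍ[ℝ]}
    {c d : Fin n → ℍ[ℝ]}
    (hc : ∑ k ∈ Finset.range (ℓ + 1), (A k).mulVec (seqC lam c d k) = 0)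
    (hd : ∑ k ∈ Finset.range (ℓ + 1), (A k).mulVec (fun i => d i * lam ^ k) = 0) :
    IsSolution ℓ n A (F lam c d) := by
  refine ⟨contDiff_F _ _ _ _, fun t => ?_⟩
  simp only [iteratedDeriv_F, mulVec_F]
  rw [sum_F, hc, hd]
  funext i
  simp [F]

theorem norm_exp_smul (lam : ℍ[ℝ]) (t : ℝ) :
    ‖NormedSpace.exp (t • lam)‖ = Real.exp (t * lam.re) := by
  rw [Quaternion.norm_exp]
  simp [← Real.exp_eq_exp_ℝ]

theorem re_eq_zero_of_bounded {lam : ℍ[ℝ]} {c : Fin n → ℍ[ℝ]} (hc : c ≠ 0)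
    (h : ∃ M : ℝ, ∀ t, ‖F lam c 0 t‖ ≤ M) : lam.re = 0 := by
  obtain ⟨M, hM⟩ := h
  obtain ⟨i, hi⟩ := Function.ne_iff.1 hc
  by_contra hre
  have hpos : 0 < ‖c i‖ := norm_pos_iff.2 hi
  have key : ∀ s : ℝ, ‖c i‖ * Real.exp s ≤ M := by
    intro s
    have h1 := (norm_le_pi_norm (F lam c 0 (s / lam.re)) i).trans (hM _)
    simp only [F, Pi.zero_apply, smul_zero, add_zero, norm_mul, norm_exp_smul] at h1
    rwa [div_mul_cancel₀ _ hre] at h1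
  have h2 := key (M / ‖c i‖)
  have h3 := Real.add_one_le_exp (M / ‖c i‖)
  have h4 : ‖c i‖ * (M / ‖c i‖ + 1) ≤ M := (mul_le_mul_of_nonneg_left h3 hpos.le).trans h2
  rw [mul_add, mul_div_cancel₀ _ hpos.ne'] at h4
  linarith

theorem d_eq_zero_of_bounded {lam : ℍ[ℝ]} {c d : Fin n → ℍ[ℝ]} (hre : lam.re = 0)
    (h : ∃ M : ℝ, ∀ t, ‖F lam c d t‖ ≤ M) : d = 0 := by
  obtain ⟨M, hM⟩ := h
  by_contra hd
  obtain ⟨i, hi⟩ := Function.ne_iff.1 hd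
  have hpos : 0 < ‖d i‖ := norm_pos_iff.2 hi
  have key : ∀ t : ℝ, |t| * ‖d i‖ ≤ M + ‖c i‖ := by
    intro t
    have h1 := (norm_le_pi_norm (F lam c d t) i).trans (hM _)
    simp only [F, norm_mul, norm_exp_smul, hre, mul_zero, Real.exp_zero, mul_one] at h1
    have h2 : ‖t • d i‖ ≤ ‖c i + t • d i‖ + ‖c i‖ := by
      have := norm_sub_le (c i + t • d i) (c i)
      simpa using this
    rw [norm_smul, Real.norm_eq_abs] at h2
    linarith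
  have h2 := key ((|M| + ‖c i‖ + 1) / ‖d i‖)
  rw [abs_of_nonneg (by positivity), div_mul_cancel₀ _ hpos.ne'] at h2
  have := le_abs_self M
  linarith

end Q8.StabB
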