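import Pool.Agent.Q8.StabB.Phi
import Pool.Agent.Q8.StabB.Sol

namespace Q8.StabB

open Quaternion Matrix

/-- Hypothesis (B): the leading coefficient is invertible and `A_k` is `φ`-hermitian for even `k`
and `φ`-skewhermitian for odd `k` (`0 ≤ k ≤ ℓ`). -/
def HypB (φ : ℍ[ℝ] →ₗ[ℝ] ℍ[ℝ]) (ℓ n : ℕ) (A : ℕ → Matrix (Fin n) (Fin n) ℍ[ℝ]) : Prop :=
  IsUnit (A ℓ) ∧ ∀ k ≤ ℓ, (Even k → (A k)ᵀ.map φ = A k) ∧ (Odd k → (A k)ᵀ.map φ = -A k)

/-- The block companion matrix. -/
noncomputable def companion (ℓ n : ℕ) (A : ℕ → Matrix (Fin n) (Fin n) ℍ[ℝ]) :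
    Matrix (Fin ℓ × Fin n) (Fin ℓ × Fin n) ℍ[ℝ] := fun p q =>
  if (p.1 : ℕ) + 1 < ℓ then (if (q.1 : ℕ) = p.1 + 1 ∧ q.2 = p.2 then 1 else 0)
  else -(Ring.inverse (A ℓ) * A q.1) p.2 q.2

/-- The matrix `G`. -/
noncomputable def gram (ℓ n : ℕ) (A : ℕ → Matrix (Fin n) (Fin n) ℍ[ℝ]) :
    Matrix (Fin ℓ × Fin n) (Fin ℓ × Fin n) ℍ[ℝ] := fun p q =>
  if (p.1 : ℕ) + q.1 + 1 ≤ ℓ then (-1) ^ (p.1 : ℕ) * A (p.1 + q.1 + 1) p.2 q.2 else 0

variable {n m : ℕ} {A : ℕ → Matrix (Fin n) (Fin n) ℍ[ℝ]}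

theorem companion_mulVec_lt (z : Fin (m + 1) × Fin n → ℍ[ℝ]) (i : ℕ) (h : i + 1 < m + 1)
    (a : Fin n) :
    (companion (m + 1) n A).mulVec z (⟨i, by omega⟩, a) = z (⟨i + 1, h⟩, a) := by
  simp only [Matrix.mulVec, dotProduct, companion]
  rw [Finset.sum_eq_single (⟨i + 1, h⟩, a)]
  · simp [h]
  · intro q _ hq
    rw [if_pos h, if_neg, zero_mul]
    rintro ⟨h1, h2⟩
    apply hq
    ext
    · exact h1
    · exact congrArg Fin.val h2
  · simp

theorem companion_mulVec_last (z : Fin (m + 1) × Fin n → ℍ[ℝ]) (w : ℕ → Fin n → ℍ[ℝ])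
    (hw : ∀ (i : Fin (m + 1)) a, z (i, a) = w i a) (a : Fin n) :
    (companion (m + 1) n A).mulVec z (Fin.last m, a) =
      -(Ring.inverse (A (m + 1)) *ᵥ (∑ j ∈ Finset.range (m + 1), (A j).mulVec (w j))) a := by
  simp only [Matrix.mulVec, dotProduct, companion]
  rw [Fintype.sum_prod_type]
  simp only [Fin.val_last, lt_irrefl, if_false, neg_mul, Finset.sum_neg_distrib]
  congr 1
  have hsum : ∀ s : Finset ℕ, Ring.inverse (A (m + 1)) *ᵥ (∑ j ∈ s, (A j).mulVec (w j)) =
      ∑ j ∈ s, (Ring.inverse (A (m + 1)) * A j) *ᵥ w j := by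
    intro s
    induction s using Finset.induction_on with
    | empty => simp
    | insert j s hj ih => rw [Finset.sum_insert hj, Finset.sum_insert hj, Matrix.mulVec_add, ih,
        Matrix.mulVec_mulVec]
  have h1 := congrFun (hsum (Finset.range (m + 1))) a
  simp only [Matrix.mulVec, dotProduct, Finset.sum_apply] at h1 ⊢
  rw [h1, Finset.sum_range]
  simp only [hw]

theorem chain (hA : IsUnit (A (m + 1))) {lam : ℍ[ℝ]} {z u : Fin (m + 1) × Fin n → ℍ[ℝ]}
    (hz : (companion (m + 1) n A).mulVec z = fun p => z p * lam + u p)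
    (hu : (companion (m + 1) n A).mulVec u = fun p => u p * lam) :
    (∀ (i : Fin (m + 1)) a, u (i, a) = u (0, a) * lam ^ (i : ℕ)) ∧
    (∀ (i : Fin (m + 1)) a, z (i, a) = seqC lam (fun a => z (0, a)) (fun a => u (0, a)) i a) ∧
    ∑ k ∈ Finset.range (m + 1 + 1), (A k).mulVec
      (seqC lam (fun a => z (0, a)) (fun a => u (0, a)) k) = 0 ∧
    ∑ k ∈ Finset.range (m + 1 + 1), (A k).mulVec (fun a => u (0, a) * lam ^ k) = 0 := by
  have hU : ∀ (i : ℕ) (h : i < m + 1) a, u (⟨i, h⟩, a) = u (0, a) * lam ^ i := by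
    intro i
    induction i with
    | zero => intro h a; simp
    | succ i ih =>
      intro h a
      have h1 := congrFun hu (⟨i, by omega⟩, a)
      rw [companion_mulVec_lt u i h a] at h1
      rw [h1, ih (by omega) a, pow_succ, mul_assoc]
  have hZ : ∀ (i : ℕ) (h : i < m + 1) a, z (⟨i, h⟩, a) =
      seqC lam (fun a => z (0, a)) (fun a => u (0, a)) i a := by
    intro i
    induction i with
    | zero => intro h a; simp [seqC]
    | succ i ih =>
      intro h a
      have h1 := congrFun hz (⟨i, by omega⟩, a)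
      rw [companion_mulVec_lt z i h a] at h1
      rw [h1, ih (by omega) a, hU i (by omega) a]
      simp [seqC]
  have hlast : ∀ (y v : Fin (m + 1) × Fin n → ℍ[ℝ]) (w : ℕ → Fin n → ℍ[ℝ]),
      (∀ (i : Fin (m + 1)) a, y (i, a) = w i a) →
      (companion (m + 1) n A).mulVec y = v → (∀ a, v (Fin.last m, a) = w (m + 1) a) →
      ∑ k ∈ Finset.range (m + 1 + 1), (A k).mulVec (w k) = 0 := by
    intro y v w hyw hyv hv
    rw [Finset.sum_range_succ]
    have h1 : w (m + 1) = -(Ring.inverse (A (m + 1)) *ᵥ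
        (∑ j ∈ Finset.range (m + 1), (A j).mulVec (w j))) := by
      funext a
      rw [← hv a, ← hyv, companion_mulVec_last y w hyw a]
      rfl
    rw [h1, Matrix.mulVec_neg, Matrix.mulVec_mulVec, Ring.mul_inverse_cancel _ hA,
      Matrix.one_mulVec]
    simp
  refine ⟨fun i a => hU i i.2 a, fun i a => hZ i i.2 a, ?_, ?_⟩
  · refine hlast z _ _ (fun i a => hZ i i.2 a) hz ?_
    intro a
    have h1 := hZ m (by omega) a
    have h2 := hU m (by omega) a
    change z (⟨m, _⟩, a) * lam + u (⟨m, _⟩, a) = _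
    rw [h1, h2]
    simp [seqC]
  · refine hlast u _ (fun k a => u (0, a) * lam ^ k) (fun i a => hU i i.2 a) hu ?_
    intro a
    have h2 := hU m (by omega) a
    change u (⟨m, _⟩, a) * lam = _
    rw [h2, pow_succ, mul_assoc]

/-- Eigenvectors of a bounded system have purely imaginary eigenvalue. -/
theorem re_eq_zero (hA : IsUnit (A (m + 1))) (hb : IsBoundedSystem (m + 1) n A) {lam : ℍ[ℝ]}
    {u : Fin (m + 1) × Fin n → ℍ[ℝ]} (hu0 : u ≠ 0)
    (hu : (companion (m + 1) n A).mulVec u = fun p => u p * lam) : lam.re = 0 := by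
  obtain ⟨h1, -, -, h4⟩ := chain hA (z := 0) (u := 0) (lam := lam) (A := A) (n := n) (m := m)
    (by funext p; simp) (by funext p; simp)
  clear h1 h4
  obtain ⟨h1, h2, h3, h4⟩ := chain hA (z := u) (u := 0) (lam := lam) (by rw [hu]; funext p; simp)
    (by funext p; simp)
  have hsol : IsSolution (m + 1) n A (F lam (fun a => u (0, a)) 0) := by
    exact isSolution_F h3 h4
  refine re_eq_zero_of_bounded ?_ (hb _ hsol)
  intro h0
  apply hu0
  have hsc : ∀ k, seqC lam (fun a => u (0, a)) (fun a => (0 : Fin (m + 1) × Fin n → ℍ[ℝ]) (0, a)) k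
      = 0 := by
    intro k
    induction k with
    | zero => exact h0
    | succ k ih =>
      funext a
      have := congrFun ih a
      simp only [Pi.zero_apply] at this
      simp [seqC, this]
  funext p
  rw [show p = (p.1, p.2) from rfl, h2 p.1 p.2, hsc]
  rfl

/-- No Jordan chains in a bounded system. -/
theorem no_chain (hA : IsUnit (A (m + 1))) (hb : IsBoundedSystem (m + 1) n A) {lam : ℍ[ℝ]}
    {z u : Fin (m + 1) × Fin n → ℍ[ℝ]}
    (hz : (companion (m + 1) n A).mulVec z = fun p => z p * lam + u p)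
    (hu : (companion (m + 1) n A).mulVec u = fun p => u p * lam) : u = 0 := by
  by_contra hu0
  have hre := re_eq_zero hA hb hu0 hu
  obtain ⟨h1, h2, h3, h4⟩ := chain hA hz hu
  have h5 := d_eq_zero_of_bounded hre (hb _ (isSolution_F h3 h4))
  apply hu0
  funext p
  rw [show p = (p.1, p.2) from rfl, h1 p.1 p.2]
  have := congrFun h5 p.2
  simp only [Pi.zero_apply] at this ⊢
  rw [this, zero_mul]

end Q8.StabB
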