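import Pool.Agent.Q8.StabB.Comp

namespace Q8.StabB

open Quaternion Matrix

/-- The form `(x, y) ↦ x_φ G y`. -/
noncomputable def form {ι : Type*} [Fintype ι] (φ : ℍ[ℝ] →ₗ[ℝ] ℍ[ℝ]) (G : Matrix ι ι ℍ[ℝ])
    (x y : ι → ℍ[ℝ]) : ℍ[ℝ] := ∑ p, ∑ q, φ (x p) * G p q * y q

section
variable {ι : Type*} [Fintype ι] {φ : ℍ[ℝ] →ₗ[ℝ] ℍ[ℝ]} {G : Matrix ι ι ℍ[ℝ]}

theorem form_add_left (x x' y : ι → ℍ[ℝ]) :
    form φ G (x + x') y = form φ G x y + form φ G x' y := by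
  simp only [form, Pi.add_apply, map_add, add_mul, Finset.sum_add_distrib]

theorem form_add_right (x y y' : ι → ℍ[ℝ]) :
    form φ G x (y + y') = form φ G x y + form φ G x y' := by
  simp only [form, Pi.add_apply, mul_add, Finset.sum_add_distrib]

theorem form_mul_left (h : IsNonstandard φ) (x y : ι → ℍ[ℝ]) (c : ℍ[ℝ]) :
    form φ G (fun p => x p * c) y = φ c * form φ G x y := by
  simp only [form, h.mul, Finset.mul_sum, mul_assoc]

theorem form_mul_right (x y : ι → ℍ[ℝ]) (c : ℍ[ℝ]) :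
    form φ G x (fun p => y p * c) = form φ G x y * c := by
  simp only [form, Finset.sum_mul, mul_assoc]

theorem form_skew (h : IsNonstandard φ) (hG : ∀ p q, φ (G p q) = -G q p) (x y : ι → ℍ[ℝ]) :
    form φ G y x = -φ (form φ G x y) := by
  simp only [form, map_sum, h.mul, h.invol, hG]
  rw [Finset.sum_comm, ← Finset.sum_neg_distrib]
  refine Finset.sum_congr rfl fun p _ => ?_
  rw [← Finset.sum_neg_distrib]
  refine Finset.sum_congr rfl fun q _ => ?_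
  simp [mul_assoc]
end

variable {n ℓ : ℕ} {A : ℕ → Matrix (Fin n) (Fin n) ℍ[ℝ]} {φ : ℍ[ℝ] →ₗ[ℝ] ℍ[ℝ]}

theorem HypB.entry (hB : HypB φ ℓ n A) {k : ℕ} (hk : k ≤ ℓ) (a b : Fin n) :
    φ (A k a b) = (-1) ^ k * A k b a := by
  obtain ⟨h1, h2⟩ := hB.2 k hk
  rcases Nat.even_or_odd k with he | ho
  · have := congrFun (congrFun (h1 he) b) a
    simp only [Matrix.map_apply, Matrix.transpose_apply] at this
    rw [this, he.neg_one_pow, one_mul]
  · have := congrFun (congrFun (h2 ho) b) a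
    simp only [Matrix.map_apply, Matrix.transpose_apply, Matrix.neg_apply] at this
    rw [this, ho.neg_one_pow, neg_one_mul]

theorem map_neg_one_pow_mul (φ : ℍ[ℝ] →ₗ[ℝ] ℍ[ℝ]) (i : ℕ) (x : ℍ[ℝ]) :
    φ ((-1) ^ i * x) = (-1) ^ i * φ x := by
  rcases Nat.even_or_odd i with he | ho
  · simp [he.neg_one_pow]
  · simp [ho.neg_one_pow]

theorem gram_skew (hB : HypB φ ℓ n A) (p q : Fin ℓ × Fin n) :
    φ (gram ℓ n A p q) = -gram ℓ n A q p := by
  simp only [gram]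
  by_cases h : (p.1 : ℕ) + q.1 + 1 ≤ ℓ
  · rw [if_pos h, if_pos (by omega), map_neg_one_pow_mul, hB.entry h, ← mul_assoc, ← pow_add,
      add_comm (q.1 : ℕ) p.1, ← neg_mul]
    congr 1
    rw [show (p.1 : ℕ) + (p.1 + q.1 + 1) = 2 * p.1 + (q.1 + 1) by ring, pow_add, pow_mul]
    simp [pow_succ]
  · rw [if_neg h, if_neg (by omega), map_zero, neg_zero]

/-- `x_φ A_m y`. -/
noncomputable def cf (φ : ℍ[ℝ] →ₗ[ℝ] ℍ[ℝ]) (A : ℕ → Matrix (Fin n) (Fin n) ℍ[ℝ])
    (x y : Fin n → ℍ[ℝ]) (m : ℕ) : ℍ[ℝ] := ∑ a, ∑ b, φ (x a) * A m a b * y b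

theorem cf_eq (x y : Fin n → ℍ[ℝ]) (m : ℕ) :
    cf φ A x y m = ∑ a, φ (x a) * (A m).mulVec y a := by
  simp only [cf, Matrix.mulVec, dotProduct, Finset.mul_sum, mul_assoc]

theorem cf_skew (h : IsNonstandard φ) (hB : HypB φ ℓ n A) (x y : Fin n → ℍ[ℝ]) {m : ℕ}
    (hm : m ≤ ℓ) : φ (cf φ A x y m) = (-1) ^ m * cf φ A y x m := by
  simp only [cf, map_sum, h.mul, h.invol, hB.entry hm, Finset.mul_sum]
  rw [Finset.sum_comm]
  refine Finset.sum_congr rfl fun a _ => Finset.sum_congr rfl fun b _ => ?_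
  rcases Nat.even_or_odd m with he | ho
  · simp [he.neg_one_pow, mul_assoc]
  · simp [ho.neg_one_pow, mul_assoc]

/-- the sum `∑_{i + j + 1 ≤ ℓ} α ^ i c_{i+j+1} λ ^ j`. -/
noncomputable def S (ℓ : ℕ) (c : ℕ → ℍ[ℝ]) (α lam : ℍ[ℝ]) : ℍ[ℝ] :=
  ∑ i ∈ Finset.range ℓ, ∑ j ∈ Finset.range ℓ,
    if i + j + 1 ≤ ℓ then α ^ i * c (i + j + 1) * lam ^ j else 0

theorem map_pow (h : IsNonstandard φ) (x : ℍ[ℝ]) (i : ℕ) : φ (x ^ i) = φ x ^ i := by
  induction i with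
  | zero => simp [h.one]
  | succ i ih => rw [pow_succ, h.mul, ih, pow_succ']

theorem form_chain (h : IsNonstandard φ) {α : ℍ[ℝ]} (hα : φ α = -α) (lam : ℍ[ℝ])
    (x y : Fin n → ℍ[ℝ]) :
    form φ (gram ℓ n A) (fun p => x p.2 * α ^ (p.1 : ℕ)) (fun q => y q.2 * lam ^ (q.1 : ℕ)) =
      S ℓ (cf φ A x y) α lam := by
  simp only [form, S]
  rw [Fintype.sum_prod_type, Finset.sum_range]
  refine Finset.sum_congr rfl fun i _ => ?_
  rw [Finset.sum_range]
  simp only [Fintype.sum_prod_type]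
  rw [Finset.sum_comm]
  refine Finset.sum_congr rfl fun j _ => ?_
  by_cases hij : (i : ℕ) + j + 1 ≤ ℓ
  · simp only [gram, hij, if_true, cf, Finset.mul_sum, Finset.sum_mul]
    refine Finset.sum_congr rfl fun a _ => Finset.sum_congr rfl fun b _ => ?_
    rw [h.mul, map_pow h, hα]
    rcases Nat.even_or_odd (i : ℕ) with he | ho
    · simp [he.neg_one_pow, he.neg_pow, mul_assoc]
    · simp [ho.neg_one_pow, ho.neg_pow, mul_assoc]
  · simp [gram, hij]

theorem telescope (ℓ : ℕ) (c : ℕ → ℍ[ℝ]) (α lam : ℍ[ℝ]) :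
    S ℓ c α lam * lam - α * S ℓ c α lam =
      ∑ m ∈ Finset.range (ℓ + 1), c m * lam ^ m - ∑ m ∈ Finset.range (ℓ + 1), α ^ m * c m := by
  let T : ℕ → ℕ → ℍ[ℝ] := fun i j => if i + j ≤ ℓ then α ^ i * c (i + j) * lam ^ j else 0
  have h1 : S ℓ c α lam * lam = ∑ i ∈ Finset.range ℓ, ∑ j ∈ Finset.range ℓ, T i (j + 1) := by
    simp only [S, Finset.sum_mul]
    refine Finset.sum_congr rfl fun i _ => Finset.sum_congr rfl fun j _ => ?_
    simp only [T]
    by_cases hij : i + j + 1 ≤ ℓ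
    · rw [if_pos hij, if_pos (by omega), pow_succ, ← add_assoc]
      simp [mul_assoc]
    · rw [if_neg hij, if_neg (by omega), zero_mul]
  have h2 : α * S ℓ c α lam = ∑ i ∈ Finset.range ℓ, ∑ j ∈ Finset.range ℓ, T (i + 1) j := by
    simp only [S, Finset.mul_sum]
    refine Finset.sum_congr rfl fun i _ => Finset.sum_congr rfl fun j _ => ?_
    simp only [T]
    by_cases hij : i + j + 1 ≤ ℓ
    · rw [if_pos hij, if_pos (by omega), pow_succ', show i + 1 + j = i + j + 1 by ring]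
      simp [mul_assoc]
    · rw [if_neg hij, if_neg (by omega), mul_zero]
  have e1 : ∑ i ∈ Finset.range (ℓ + 1), ∑ j ∈ Finset.range (ℓ + 1), T i j =
      (∑ i ∈ Finset.range ℓ, ∑ j ∈ Finset.range ℓ, T i (j + 1)) +
        ∑ i ∈ Finset.range (ℓ + 1), T i 0 := by
    simp only [Finset.sum_range_succ' _ ℓ]
    rw [Finset.sum_add_distrib]
    have : ∀ j ∈ Finset.range ℓ, T 0 (j + 1) = T 0 (j + 1) := fun _ _ => rfl
    have hz : ∑ j ∈ Finset.range ℓ, T ℓ (j + 1) = 0 := by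
      refine Finset.sum_eq_zero fun j _ => ?_
      simp only [T]; rw [if_neg (by omega)]
    have hs : ∑ i ∈ Finset.range ℓ, ∑ j ∈ Finset.range ℓ, T (i + 1) (j + 1) +
        ∑ j ∈ Finset.range ℓ, T 0 (j + 1) =
        ∑ i ∈ Finset.range ℓ, ∑ j ∈ Finset.range ℓ, T i (j + 1) := by
      rw [← Finset.sum_range_succ' (fun i => ∑ j ∈ Finset.range ℓ, T i (j + 1)) ℓ,
        Finset.sum_range_succ, hz, add_zero]
    rw [← hs]
    abel
  have e2 : ∑ i ∈ Finset.range (ℓ + 1), ∑ j ∈ Finset.range (ℓ + 1), T i j =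
      (∑ i ∈ Finset.range ℓ, ∑ j ∈ Finset.range ℓ, T (i + 1) j) +
        ∑ j ∈ Finset.range (ℓ + 1), T 0 j := by
    rw [Finset.sum_range_succ']
    congr 1
    refine Finset.sum_congr rfl fun i _ => ?_
    rw [Finset.sum_range_succ]
    have : T (i + 1) ℓ = 0 := by simp only [T]; rw [if_neg (by omega)]
    rw [this, add_zero]
  have e3 : ∑ i ∈ Finset.range (ℓ + 1), T i 0 = ∑ m ∈ Finset.range (ℓ + 1), α ^ m * c m := by
    refine Finset.sum_congr rfl fun i hi => ?_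
    have := Finset.mem_range.1 hi
    simp only [T]; rw [if_pos (by omega)]; simp
  have e4 : ∑ j ∈ Finset.range (ℓ + 1), T 0 j = ∑ m ∈ Finset.range (ℓ + 1), c m * lam ^ m := by
    refine Finset.sum_congr rfl fun i hi => ?_
    have := Finset.mem_range.1 hi
    simp only [T]; rw [if_pos (by omega)]; simp
  rw [h1, h2, ← e3, ← e4]
  have := e1.symm.trans e2
  rw [sub_eq_sub_iff_add_eq_add, this, add_comm]

/-- If `∑ A_k y α^k = 0` then `∑ c_m α^m = 0`. -/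
theorem sum_cf_right {α : ℍ[ℝ]} {x y : Fin n → ℍ[ℝ]}
    (hy : ∑ k ∈ Finset.range (ℓ + 1), (A k).mulVec (fun a => y a * α ^ k) = 0) :
    ∑ m ∈ Finset.range (ℓ + 1), cf φ A x y m * α ^ m = 0 := by
  have h1 : ∑ m ∈ Finset.range (ℓ + 1), cf φ A x y m * α ^ m =
      ∑ a, φ (x a) * (∑ k ∈ Finset.range (ℓ + 1), (A k).mulVec (fun a => y a * α ^ k)) a := by
    simp only [Finset.sum_apply, Finset.mul_sum]
    rw [Finset.sum_comm]
    refine Finset.sum_congr rfl fun m _ => ?_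
    rw [cf_eq, Finset.sum_mul]
    refine Finset.sum_congr rfl fun a _ => ?_
    simp only [Matrix.mulVec, dotProduct, Finset.mul_sum, Finset.sum_mul, mul_assoc]
  rw [h1, hy]
  simp

theorem sum_cf_left (h : IsNonstandard φ) (hB : HypB φ ℓ n A) {α : ℍ[ℝ]} (hα : φ α = -α)
    {x y : Fin n → ℍ[ℝ]}
    (hx : ∑ k ∈ Finset.range (ℓ + 1), (A k).mulVec (fun a => x a * α ^ k) = 0) :
    ∑ m ∈ Finset.range (ℓ + 1), α ^ m * cf φ A x y m = 0 := by
  have h1 := sum_cf_right (φ := φ) (x := y) hx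
  have h2 := congrArg φ h1
  rw [map_sum, map_zero] at h2
  rw [← h2]
  refine Finset.sum_congr rfl fun m hm => ?_
  have hm' : m ≤ ℓ := by have := Finset.mem_range.1 hm; omega
  rw [h.mul, map_pow h, hα, cf_skew h hB y x hm']
  rcases Nat.even_or_odd m with he | ho
  · simp [he.neg_one_pow, he.neg_pow]
  · simp [ho.neg_one_pow, ho.neg_pow]

end Q8.StabB
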