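import Pool.Agent.Q8.StabB.Pert

namespace Q8.StabB

open Quaternion Matrix

/-- The root subspace of the quaternion matrix `C` for `α`: the kernel of `p(C) ^ N`, where
`p(t) = t - α` if `α` is real and `p(t) = t² - 2 Re(α) t + |α|²` otherwise. -/
def rootSubspace {ι : Type*} [Fintype ι] [DecidableEq ι] (C : Matrix ι ι ℍ[ℝ]) (N : ℕ)
    (α : ℍ[ℝ]) : Set (ι → ℍ[ℝ]) :=
  {z | (α = (α.re : ℍ[ℝ]) → ((C - α.re • (1 : Matrix ι ι ℍ[ℝ])) ^ N).mulVec z = 0) ∧
    (α ≠ (α.re : ℍ[ℝ]) → ((C ^ 2 - (2 * α.re) • C + normSq α • (1 : Matrix ι ι ℍ[ℝ])) ^ N).mulVec z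
      = 0)}

section lin
variable {M : Type*} [AddCommGroup M] [Module ℝ M]

theorem ker_pow {P : Module.End ℝ M} (hP : ∀ w, P (P w) = 0 → P w = 0) (N : ℕ) {z : M}
    (h : (P ^ N) z = 0) : P z = 0 := by
  induction N with
  | zero => simp at h; rw [h, map_zero]
  | succ N ih =>
    cases N with
    | zero => simpa using h
    | succ N =>
      apply ih
      rw [pow_succ', pow_succ'] at h
      rw [pow_succ']
      exact hP _ h

theorem ker_pow_two {P Q : Module.End ℝ M} (hPQ : ∀ w, P (Q w) = Q (P w))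
    (hP : ∀ w, P (P w) = 0 → P w = 0) (hQ : ∀ w, Q (Q w) = 0 → Q w = 0) (N : ℕ) {z : M}
    (h : ((P * Q) ^ N) z = 0) : P (Q z) = 0 := by
  refine ker_pow (P := P * Q) (fun w hw => ?_) N h
  change P (Q (P (Q w))) = 0 at hw
  change P (Q w) = 0
  rw [← hPQ (Q w)] at hw
  have h2 := hP _ hw
  rw [hPQ (Q w), hPQ w] at h2
  rw [hPQ w]
  exact hQ _ h2

end lin

section
variable {ι : Type*} [Fintype ι] [DecidableEq ι]

/-- multiplication by a matrix as a real linear map -/
noncomputable def T (C : Matrix ι ι ℍ[ℝ]) : Module.End ℝ (ι → ℍ[ℝ]) where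
  toFun z := C.mulVec z
  map_add' := Matrix.mulVec_add C
  map_smul' r z := Matrix.mulVec_smul C r z

/-- right multiplication by a quaternion -/
noncomputable def R (ι : Type*) (c : ℍ[ℝ]) : Module.End ℝ (ι → ℍ[ℝ]) where
  toFun z := fun p => z p * c
  map_add' x y := by funext p; simp [add_mul]
  map_smul' r z := by funext p; simp

theorem T_pow (C : Matrix ι ι ℍ[ℝ]) (N : ℕ) : T (C ^ N) = T C ^ N := by
  induction N with
  | zero => refine LinearMap.ext fun z => ?_; change (C ^ 0).mulVec z = z; simp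
  | succ N ih =>
    rw [pow_succ, pow_succ, ← ih]
    refine LinearMap.ext fun z => ?_
    change (C ^ N * C).mulVec z = (C ^ N).mulVec (C.mulVec z)
    rw [Matrix.mulVec_mulVec]

omit [DecidableEq ι] in
theorem mulVec_mul_right (C : Matrix ι ι ℍ[ℝ]) (z : ι → ℍ[ℝ]) (c : ℍ[ℝ]) :
    C.mulVec (fun p => z p * c) = fun p => C.mulVec z p * c := by
  funext p
  simp only [Matrix.mulVec, dotProduct, Finset.sum_mul, mul_assoc]
end

theorem exists_unit (r s : ℝ) : ∃ p q : ℝ, p ^ 2 + q ^ 2 = 1 ∧ p * s + q * r = 0 := by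
  by_cases h : r ^ 2 + s ^ 2 = 0
  · have hr : r = 0 := by nlinarith [sq_nonneg r, sq_nonneg s]
    have hs : s = 0 := by nlinarith [sq_nonneg r, sq_nonneg s]
    exact ⟨1, 0, by norm_num, by simp [hs]⟩
  · have hpos : 0 < r ^ 2 + s ^ 2 := lt_of_le_of_ne (by positivity) (Ne.symm h)
    have hρ : 0 < Real.sqrt (r ^ 2 + s ^ 2) := Real.sqrt_pos.2 hpos
    refine ⟨r / Real.sqrt (r ^ 2 + s ^ 2), -s / Real.sqrt (r ^ 2 + s ^ 2), ?_, ?_⟩
    · rw [div_pow, div_pow, Real.sq_sqrt hpos.le, neg_sq, ← add_div, div_self h]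
    · field_simp; ring

variable {n m : ℕ} {A : ℕ → Matrix (Fin n) (Fin n) ℍ[ℝ]} {φ : ℍ[ℝ] →ₗ[ℝ] ℍ[ℝ]}

/-- `M_α = {z : C z = z α}` -/
def IsEig (m n : ℕ) (A : ℕ → Matrix (Fin n) (Fin n) ℍ[ℝ]) (α : ℍ[ℝ])
    (z : Fin (m + 1) × Fin n → ℍ[ℝ]) : Prop :=
  (companion (m + 1) n A).mulVec z = fun p => z p * α

theorem IsEig.data (hA : IsUnit (A (m + 1))) {α : ℍ[ℝ]} {z : Fin (m + 1) × Fin n → ℍ[ℝ]}
    (hz : IsEig m n A α z) :
    (z = fun p => (fun a => z (0, a)) p.2 * α ^ (p.1 : ℕ)) ∧
    ∑ k ∈ Finset.range (m + 1 + 1), (A k).mulVec (fun a => (fun a => z (0, a)) a * α ^ k) = 0 := by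
  obtain ⟨-, h2, h3, -⟩ := chain hA (z := z) (u := 0) (lam := α) (A := A)
    (by rw [hz]; funext p; simp) (by funext p; simp)
  have e : (fun a => (0 : Fin (m + 1) × Fin n → ℍ[ℝ]) (0, a)) = (0 : Fin n → ℍ[ℝ]) := rfl
  rw [e] at h2 h3
  simp only [seqC_zero] at h2 h3
  exact ⟨funext fun p => h2 p.1 p.2, h3⟩

theorem IsEig.ne_zero (hA : IsUnit (A (m + 1))) {α : ℍ[ℝ]} {z : Fin (m + 1) × Fin n → ℍ[ℝ]}
    (hz : IsEig m n A α z) (h0 : z ≠ 0) : (fun a => z (0, a)) ≠ 0 := by
  intro h1
  apply h0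
  rw [(hz.data hA).1]
  funext p
  have := congrFun h1 p.2
  simp only [Pi.zero_apply] at this ⊢
  rw [this, zero_mul]

theorem form_eig (h : IsNonstandard φ) (hA : IsUnit (A (m + 1))) {α : ℍ[ℝ]} (hα : φ α = -α)
    {x y : Fin (m + 1) × Fin n → ℍ[ℝ]} (hx : IsEig m n A α x) (hy : IsEig m n A α y) :
    form φ (gram (m + 1) n A) x y = S (m + 1) (cf φ A (fun a => x (0, a)) (fun a => y (0, a))) α α
    := by
  conv_lhs => rw [(hx.data hA).1, (hy.data hA).1]
  exact form_chain h hα α (fun a => x (0, a)) (fun a => y (0, a))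

theorem form_comm (h : IsNonstandard φ) (hB : HypB φ (m + 1) n A) {α : ℍ[ℝ]} (hα : φ α = -α)
    {x y : Fin (m + 1) × Fin n → ℍ[ℝ]} (hx : IsEig m n A α x) (hy : IsEig m n A α y) :
    form φ (gram (m + 1) n A) x y * α = α * form φ (gram (m + 1) n A) x y := by
  rw [form_eig h hB.1 hα hx hy]
  have h1 := telescope (m + 1) (cf φ A (fun a => x (0, a)) (fun a => y (0, a))) α α
  rw [sum_cf_left h hB hα (hx.data hB.1).2, sum_cf_right (hy.data hB.1).2, sub_zero] at h1
  exact sub_eq_zero.1 h1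

/-- An isotropic vector of `ker (C² + μ²)` gives an isotropic eigenvector. -/
theorem exists_isotropic (h : IsNonstandard φ) (hB : HypB φ (m + 1) n A) {β j : ℍ[ℝ]}
    (hβ : β * β = -1) (hβs : star β = -β) (hβφ : φ β = -β) (hjj : j * j = -1) (hjφ : φ j = j)
    (hβj : β * j = -(j * β)) {μ : ℝ} (hμ : μ ≠ 0) {x y : Fin (m + 1) × Fin n → ℍ[ℝ]}
    (hx : IsEig m n A (μ • β) x) (hy : IsEig m n A (μ • β) y)
    (hz0 : x + (fun p => y p * j) ≠ 0)
    (hz : form φ (gram (m + 1) n A) (x + fun p => y p * j) (x + fun p => y p * j) = 0) :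
    ∃ w, w ≠ 0 ∧ IsEig m n A (μ • β) w ∧ form φ (gram (m + 1) n A) w w = 0 := by
  have hα : φ (μ • β) = -(μ • β) := by rw [map_smul, hβφ, smul_neg]
  set B := form φ (gram (m + 1) n A) with hBdef
  have hcomm : ∀ {x y}, IsEig m n A (μ • β) x → IsEig m n A (μ • β) y →
      B x y = ((B x y).re : ℍ[ℝ]) - (β * B x y).re • β := by
    intro x y hx hy
    apply eq_of_comm hβ hβs
    have h1 := form_comm h hB hα hx hy
    rw [mul_smul_comm, smul_mul_assoc] at h1
    exact smul_right_injective _ hμ h1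
  have hskew : ∀ x y, B y x = -φ (B x y) := fun x y => form_skew h (gram_skew hB) x y
  have hβ0 : β ≠ 0 := by rintro rfl; simp at hβ
  have hself : ∀ {x}, IsEig m n A (μ • β) x → ∃ g : ℝ, B x x = g • β := by
    intro x hx
    have h1 := hcomm hx hx
    have h2 := hskew x x
    refine ⟨-(β * B x x).re, ?_⟩
    have h3 : B x x = -(((B x x).re : ℍ[ℝ]) + (β * B x x).re • β) := by
      conv_lhs => rw [h2, h1]
      rw [map_sub, map_smul, hβφ, h.coe]
      simp
    generalize (β * B x x).re = t at h1 h3 ⊢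
    generalize ((B x x).re : ℍ[ℝ]) = ρ at h1 h3
    have h5 := congrArg₂ (· + ·) h1 h3
    apply smul_right_injective ℍ[ℝ] (two_ne_zero : (2 : ℝ) ≠ 0)
    change (2 : ℝ) • B x x = (2 : ℝ) • (-t • β)
    rw [two_smul]
    refine h5.trans ?_
    module
  obtain ⟨gx, hgx⟩ := hself hx
  obtain ⟨gy, hgy⟩ := hself hy
  obtain ⟨r, s, hrs⟩ : ∃ r s : ℝ, B x y = (r : ℍ[ℝ]) + s • β := ⟨_, _, by
    rw [hcomm hx hy, sub_eq_add_neg, ← neg_smul]⟩
  have hrs' : B y x = -(r : ℍ[ℝ]) + s • β := by
    rw [hskew x y, hrs, map_add, map_smul, h.coe, hβφ]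
    simp
    abel
  have hjβj : j * β * j = β := by
    rw [mul_assoc, hβj, mul_neg, ← mul_assoc, hjj]; simp
  have hsum : gx + gy = 0 := by
    have h1 : B (x + fun p => y p * j) (x + fun p => y p * j) = (gx + gy) • β := by
      rw [hBdef, form_add_left, form_add_right, form_add_right, form_mul_left h, form_mul_left h,
        form_mul_right, form_mul_right, ← hBdef, hgx, hgy, hrs, hrs', hjφ]
      rw [mul_add, add_mul, mul_neg, ← Quaternion.coe_commutes r j, mul_smul_comm, smul_mul_assoc,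
        hβj, ← mul_assoc, mul_smul_comm, smul_mul_assoc, hjβj, add_smul, smul_neg]
      abel
    rw [hz] at h1
    exact (smul_eq_zero.1 h1.symm).resolve_right hβ0
  by_cases hg : gx = 0
  · by_cases hx0 : x = 0
    · refine ⟨y, ?_, hy, ?_⟩
      · rintro rfl
        apply hz0
        rw [hx0]; funext p; simp
      · have : gy = 0 := by linarith
        rw [hgy, this, zero_smul]
    · exact ⟨x, hx0, hx, by rw [hgx, hg, zero_smul]⟩
  · obtain ⟨p, q, hpq, hpq2⟩ := exists_unit r s
    set c : ℍ[ℝ] := (p : ℍ[ℝ]) + q • β with hc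
    have hcφ : φ c = (p : ℍ[ℝ]) - q • β := by
      rw [hc, map_add, map_smul, hβφ, h.coe, smul_neg, sub_eq_add_neg]
    have hcβ : c * β = β * c := by
      rw [hc, add_mul, mul_add, smul_mul_assoc, mul_smul_comm, Quaternion.coe_commutes]
    have hexp : ∀ a b c d : ℝ, ((a : ℍ[ℝ]) + b • β) * ((c : ℍ[ℝ]) + d • β) =
        ((a * c - b * d : ℝ) : ℍ[ℝ]) + (a * d + b * c) • β := by
      intro a b c d
      have hcoe : ∀ t : ℝ, (t : ℍ[ℝ]) = t • (1 : ℍ[ℝ]) := fun t => by ext <;> simp
      simp only [hcoe, mul_add, add_mul, smul_mul_smul_comm, one_mul, mul_one, hβ]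
      module
    have hcc : φ c * (gy • β) * c = gy • β := by
      have h1 : φ c = (p : ℍ[ℝ]) + (-q) • β := by rw [hcφ, sub_eq_add_neg, neg_smul]
      have h2 : gy • β = ((0 : ℝ) : ℍ[ℝ]) + gy • β := by simp
      rw [h1, h2, hexp, hc, hexp]
      have e1 : (p * 0 - -q * gy) * p - (p * gy + -q * 0) * q = 0 := by ring
      have e2 : (p * 0 - -q * gy) * q + (p * gy + -q * 0) * p = gy := by
        linear_combination gy * hpq
      rw [e1, e2]
    have hcross : φ c * B y x + B x y * c = 0 := by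
      have h1 : φ c = (p : ℍ[ℝ]) + (-q) • β := by rw [hcφ, sub_eq_add_neg, neg_smul]
      have h2 : B y x = ((-r : ℝ) : ℍ[ℝ]) + s • β := by rw [hrs']; simp
      rw [h1, h2, hrs, hc, hexp, hexp]
      have e1 : r * p - s * q = -(p * -r - -q * s) := by ring
      have e2 : r * q + s * p = 0 := by linarith
      have e3 : p * s + -q * -r = 0 := by linarith
      rw [e1, e2, e3]
      simp
    have hyc : IsEig m n A (μ • β) (fun p => y p * c) := by
      have h1 : (companion (m + 1) n A).mulVec y = fun p => y p * (μ • β) := hy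
      change (companion (m + 1) n A).mulVec (fun p => y p * c) = _
      rw [mulVec_mul_right, h1]
      funext p
      simp only [mul_assoc, mul_smul_comm, smul_mul_assoc, hcβ]
    have hw : IsEig m n A (μ • β) (x + fun p => y p * c) := by
      have h1 : (companion (m + 1) n A).mulVec x = fun p => x p * (μ • β) := hx
      have h2 : (companion (m + 1) n A).mulVec (fun p => y p * c) =
        fun p => y p * c * (μ • β) := hyc
      change (companion (m + 1) n A).mulVec (x + fun p => y p * c) = _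
      rw [Matrix.mulVec_add, h1, h2]
      funext p
      simp [add_mul]
    refine ⟨x + fun p => y p * c, ?_, hw, ?_⟩
    · intro h0
      have hxe : x = -fun p => y p * c := eq_neg_of_add_eq_zero_left h0
      have h1 : B x x = gy • β := by
        have h2 : x = fun p => y p * (-c) := by rw [hxe]; funext p; simp
        rw [h2, hBdef, form_mul_left h, form_mul_right, ← hBdef, hgy, map_neg, ← mul_assoc]
        simpa using hcc
      rw [hgx] at h1
      have h3 : gx = gy := smul_left_injective ℝ hβ0 h1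
      apply hg
      linarith
    · rw [hBdef, form_add_left, form_add_right, form_add_right, form_mul_left h, form_mul_left h,
        form_mul_right, form_mul_right, ← hBdef, hgx, hgy, ← mul_assoc, hcc]
      have : gx • β + B x y * c + (φ c * B y x + gy • β) =
          (gx + gy) • β + (φ c * B y x + B x y * c) := by rw [add_smul]; abel
      rw [this, hcross, hsum]
      simp

/-- **Main theorem.** -/
theorem main (h : IsNonstandard φ) {ℓ : ℕ} (hℓ : 2 ≤ ℓ) (hB : HypB φ ℓ n A)
    (hs : IsStablyBounded φ ℓ n A) (N : ℕ) (α : ℍ[ℝ]) (z : Fin ℓ × Fin n → ℍ[ℝ])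
    (hz : z ∈ rootSubspace (companion ℓ n A) N α) (hz0 : z ≠ 0) :
    form φ (gram ℓ n A) z z ≠ 0 := by
  intro hiso
  obtain ⟨m, rfl⟩ : ∃ m, ℓ = m + 1 := ⟨ℓ - 1, by omega⟩
  obtain ⟨β, hβ, hβs, hβφ, hf, j, hjj, -, hjφ, hβj⟩ := h.exists_beta
  have hA := hB.1
  have hb : IsBoundedSystem (m + 1) n A := by
    obtain ⟨ε, hε, hst⟩ := hs
    exact hst A hB (fun k _ i j => by simpa using hε)
  have hβre : β.re = 0 := Quaternion.star_eq_neg.1 hβs
  -- no Jordan chains
  have hnc : ∀ (lam : ℍ[ℝ]) (w : Fin (m + 1) × Fin n → ℍ[ℝ]),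
      (T (companion (m + 1) n A) - R (Fin (m + 1) × Fin n) lam) ((T (companion (m + 1) n A) - R (Fin (m + 1) × Fin n) lam) w) = 0 →
      (T (companion (m + 1) n A) - R (Fin (m + 1) × Fin n) lam) w = 0 := by
    intro lam w hw
    set u := (T (companion (m + 1) n A) - R (Fin (m + 1) × Fin n) lam) w with hu
    refine no_chain hA hb (lam := lam) (z := w) (u := u) ?_ ?_
    · rw [hu]
      funext p
      change (companion (m + 1) n A).mulVec w p =
        w p * lam + ((companion (m + 1) n A).mulVec w p - w p * lam)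
      abel
    · have h1 : (companion (m + 1) n A).mulVec u - (fun p => u p * lam) = 0 := hw
      exact sub_eq_zero.1 h1
  have heig : ∀ (lam : ℍ[ℝ]) (w : Fin (m + 1) × Fin n → ℍ[ℝ]),
      (T (companion (m + 1) n A) - R (Fin (m + 1) × Fin n) lam) w = 0 → IsEig m n A lam w := by
    intro lam w hw
    have h1 : (companion (m + 1) n A).mulVec w - (fun p => w p * lam) = 0 := hw
    exact sub_eq_zero.1 h1
  -- the final contradiction
  have fin : ∀ (μ : ℝ) (w : Fin (m + 1) × Fin n → ℍ[ℝ]), w ≠ 0 → IsEig m n A (μ • β) w →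
      form φ (gram (m + 1) n A) w w = 0 → False := by
    intro μ w hw0 hw hform
    have hα : φ (μ • β) = -(μ • β) := by rw [map_smul, hβφ, smul_neg]
    refine pert h hβ hβs hβφ hf hℓ hB μ (hw.ne_zero hA hw0) (hw.data hA).2 ?_ hs
    rw [← form_eig h hA hα hw hw]
    exact hform
  by_cases hα : α = (α.re : ℍ[ℝ])
  · have h1 := hz.1 hα
    have e1 : T (companion (m + 1) n A - α.re • (1 : Matrix _ _ ℍ[ℝ])) =
        T (companion (m + 1) n A) - R (Fin (m + 1) × Fin n) (α.re : ℍ[ℝ]) := by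
      refine LinearMap.ext fun w => ?_
      change (companion (m + 1) n A - α.re • (1 : Matrix _ _ ℍ[ℝ])).mulVec w =
        (companion (m + 1) n A).mulVec w - fun p => w p * (α.re : ℍ[ℝ])
      rw [Matrix.sub_mulVec, Matrix.smul_mulVec, Matrix.one_mulVec]
      congr 1
      funext p
      rw [← Quaternion.coe_commutes, Quaternion.coe_mul_eq_smul]
      rfl
    have h2 : ((T (companion (m + 1) n A) - R (Fin (m + 1) × Fin n) (α.re : ℍ[ℝ])) ^ N) z = 0 := by
      rw [← e1, ← T_pow]; exact h1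
    have h3 := heig _ _ (ker_pow (hnc _) N h2)
    have h4 := re_eq_zero hA hb hz0 h3
    rw [Quaternion.re_coe] at h4
    rw [h4] at h3
    have h5 : IsEig m n A ((0 : ℝ) • β) z := by simpa using h3
    exact fin 0 z hz0 h5 hiso
  · have h1 := hz.2 hα
    have hpos : 0 < normSq α - α.re ^ 2 := by
      have e : normSq α - α.re ^ 2 = α.imI ^ 2 + α.imJ ^ 2 + α.imK ^ 2 := by
        rw [Quaternion.normSq_def']; ring
      rw [e]
      by_contra hcon
      apply hα
      have e1 : α.imI = 0 := by nlinarith [sq_nonneg α.imI, sq_nonneg α.imJ, sq_nonneg α.imK]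
      have e2 : α.imJ = 0 := by nlinarith [sq_nonneg α.imI, sq_nonneg α.imJ, sq_nonneg α.imK]
      have e3 : α.imK = 0 := by nlinarith [sq_nonneg α.imI, sq_nonneg α.imJ, sq_nonneg α.imK]
      ext
      · simp
      · simp [e1]
      · simp [e2]
      · simp [e3]
    set a := α.re with ha
    obtain ⟨μ, hμ0, hμ⟩ : ∃ μ : ℝ, μ ≠ 0 ∧ μ ^ 2 = normSq α - a ^ 2 :=
      ⟨Real.sqrt _, (Real.sqrt_pos.2 hpos).ne', Real.sq_sqrt hpos.le⟩
    set l1 : ℍ[ℝ] := (a : ℍ[ℝ]) + μ • β with hl1
    set l2 : ℍ[ℝ] := (a : ℍ[ℝ]) - μ • β with hl2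
    have hcoe : ∀ t : ℝ, (t : ℍ[ℝ]) = t • (1 : ℍ[ℝ]) := fun t => by ext <;> simp
    have hsum : l1 + l2 = (2 * a) • (1 : ℍ[ℝ]) := by
      rw [hl1, hl2, hcoe]; module
    have hprod : l1 * l2 = (normSq α) • (1 : ℍ[ℝ]) := by
      have : normSq α = a ^ 2 + μ ^ 2 := by rw [hμ]; ring
      rw [hl1, hl2, hcoe, this]
      simp only [mul_sub, add_mul, smul_mul_smul_comm, one_mul, mul_one, hβ]
      module
    have hprod' : l2 * l1 = l1 * l2 := by
      rw [hl1, hl2, hcoe]
      simp only [mul_sub, sub_mul, mul_add, add_mul, smul_mul_smul_comm, one_mul, mul_one, hβ]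
      module
    have hcommPQ : ∀ w, (T (companion (m + 1) n A) - R (Fin (m + 1) × Fin n) l1)
        ((T (companion (m + 1) n A) - R (Fin (m + 1) × Fin n) l2) w) = (T (companion (m + 1) n A) - R (Fin (m + 1) × Fin n) l2)
        ((T (companion (m + 1) n A) - R (Fin (m + 1) × Fin n) l1) w) := by
      intro w
      funext p
      have e1 := congrFun (mulVec_mul_right (companion (m + 1) n A) w l1) p
      have e2 := congrFun (mulVec_mul_right (companion (m + 1) n A) w l2) p
      change (companion (m + 1) n A).mulVec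
          ((companion (m + 1) n A).mulVec w - fun p => w p * l2) p -
          ((companion (m + 1) n A).mulVec w p - w p * l2) * l1 =
        (companion (m + 1) n A).mulVec
          ((companion (m + 1) n A).mulVec w - fun p => w p * l1) p -
          ((companion (m + 1) n A).mulVec w p - w p * l1) * l2
      rw [Matrix.mulVec_sub, Matrix.mulVec_sub, Pi.sub_apply, Pi.sub_apply, e1, e2, sub_mul,
        sub_mul, mul_assoc, mul_assoc, hprod']
      abel
    have e1 : T (companion (m + 1) n A ^ 2 - (2 * a) • companion (m + 1) n A +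
        normSq α • (1 : Matrix _ _ ℍ[ℝ])) =
        (T (companion (m + 1) n A) - R (Fin (m + 1) × Fin n) l1) * (T (companion (m + 1) n A) - R (Fin (m + 1) × Fin n) l2) := by
      refine LinearMap.ext fun w => ?_
      funext p
      have e2 := congrFun (mulVec_mul_right (companion (m + 1) n A) w l2) p
      change (companion (m + 1) n A ^ 2 - (2 * a) • companion (m + 1) n A +
        normSq α • (1 : Matrix _ _ ℍ[ℝ])).mulVec w p = (companion (m + 1) n A).mulVec
          ((companion (m + 1) n A).mulVec w - fun p => w p * l2) p -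
          ((companion (m + 1) n A).mulVec w p - w p * l2) * l1
      rw [Matrix.mulVec_sub, Pi.sub_apply, e2, sub_mul, mul_assoc, hprod', hprod,
        Matrix.add_mulVec, Matrix.sub_mulVec, Matrix.smul_mulVec, Matrix.smul_mulVec,
        Matrix.one_mulVec, pow_two, ← Matrix.mulVec_mulVec]
      simp only [Pi.add_apply, Pi.sub_apply, Pi.smul_apply, mul_smul_comm, mul_one]
      have e3 : (companion (m + 1) n A).mulVec w p * l2 + (companion (m + 1) n A).mulVec w p * l1
          = (2 * a) • (companion (m + 1) n A).mulVec w p := by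
        rw [← mul_add, add_comm l2 l1, hsum, mul_smul_comm, mul_one]
      rw [← e3]
      abel
    have h2 : (((T (companion (m + 1) n A) - R (Fin (m + 1) × Fin n) l1) *
        (T (companion (m + 1) n A) - R (Fin (m + 1) × Fin n) l2)) ^ N) z = 0 := by
      rw [← e1, ← T_pow]; exact h1
    have h3 := ker_pow_two hcommPQ (hnc _) (hnc _) N h2
    have hl1re : l1.re = a := by simp [hl1, hβre]
    have hl2re : l2.re = a := by simp [hl2, hβre]
    have ha0 : a = 0 := by
      by_cases h4 : (T (companion (m + 1) n A) - R (Fin (m + 1) × Fin n) l2) z = 0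
      · rw [← hl2re]; exact re_eq_zero hA hb hz0 (heig _ _ h4)
      · rw [← hl1re]; exact re_eq_zero hA hb h4 (heig _ _ h3)
    have hl1' : l1 = μ • β := by rw [hl1, ha0]; simp
    have hl2' : l2 = -(μ • β) := by rw [hl2, ha0]; simp
    rw [hl1', hl2'] at h3
    rw [hl1', hl2'] at hcommPQ
    have hmb : (μ • β) * (μ • β) = -(μ ^ 2) • (1 : ℍ[ℝ]) := by
      rw [smul_mul_smul_comm, hβ]; module
    set zp := (T (companion (m + 1) n A) - R (Fin (m + 1) × Fin n) (-(μ • β))) z with hzp
    set zm := (T (companion (m + 1) n A) - R (Fin (m + 1) × Fin n) (μ • β)) z with hzm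
    have hp : IsEig m n A (μ • β) zp := heig _ _ h3
    have hm : IsEig m n A (-(μ • β)) zm := by
      apply heig
      rw [hzm, ← hcommPQ]
      exact h3
    -- decomposition
    set κ : ℍ[ℝ] := (-(2 * μ)⁻¹) • β with hκ
    have hκβ : κ * β = β * κ := by rw [hκ, smul_mul_assoc, mul_smul_comm]
    have hdec : ∀ p, z p = zp p * κ - zm p * κ := by
      intro p
      have e1 : zp p - zm p = z p * ((2 * μ) • β) := by
        have e2 : zp p = (companion (m + 1) n A).mulVec z p - z p * (-(μ • β)) := rfl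
        have e3 : zm p = (companion (m + 1) n A).mulVec z p - z p * (μ • β) := rfl
        rw [e2, e3, mul_neg, mul_smul_comm, mul_smul_comm]
        module
      rw [← sub_mul, e1, mul_assoc, hκ, smul_mul_smul_comm, hβ]
      have : (2 * μ) * -(2 * μ)⁻¹ = -1 := by field_simp
      rw [this]
      simp
    set x : Fin (m + 1) × Fin n → ℍ[ℝ] := fun p => zp p * κ with hx
    set y : Fin (m + 1) × Fin n → ℍ[ℝ] := fun p => zm p * (κ * j) with hy
    have hxE : IsEig m n A (μ • β) x := by
      change (companion (m + 1) n A).mulVec (fun p => zp p * κ) = _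
      rw [mulVec_mul_right, show (companion (m + 1) n A).mulVec zp = fun p => zp p * (μ • β) from hp]
      funext p
      simp only [hx, mul_assoc, mul_smul_comm, smul_mul_assoc, hκβ]
    have hyE : IsEig m n A (μ • β) y := by
      change (companion (m + 1) n A).mulVec (fun p => zm p * (κ * j)) = _
      rw [mulVec_mul_right,
        show (companion (m + 1) n A).mulVec zm = fun p => zm p * (-(μ • β)) from hm]
      funext p
      have : (-(μ • β)) * (κ * j) = (κ * j) * (μ • β) := by
        rw [mul_assoc κ, mul_smul_comm, neg_mul, smul_mul_assoc, ← mul_assoc β, ← hκβ, mul_assoc κ,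
          hβj]
        simp
      simp only [hy, mul_assoc]
      rw [this, mul_assoc]
    have hxy : z = x + fun p => y p * j := by
      funext p
      rw [hdec p]
      simp only [Pi.add_apply, hx, hy, mul_assoc, hjj, mul_neg, mul_one]
      abel
    rw [hxy] at hz0 hiso
    obtain ⟨w, hw0, hw, hwf⟩ := exists_isotropic h hB hβ hβs hβφ hjj hjφ hβj hμ0 hxE hyE hz0 hiso
    exact fin μ w hw0 hw hwf

end Q8.StabB
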