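import Pool.Agent.Q8.StabB.Form

namespace Q8.StabB

open Quaternion Matrix Filter Topology

variable {n ℓ : ℕ} {A : ℕ → Matrix (Fin n) (Fin n) ℍ[ℝ]} {φ : ℍ[ℝ] →ₗ[ℝ] ℍ[ℝ]}

/-- The system is stably bounded: all nearby systems obeying (B) are bounded. -/
def IsStablyBounded (φ : ℍ[ℝ] →ₗ[ℝ] ℍ[ℝ]) (ℓ n : ℕ) (A : ℕ → Matrix (Fin n) (Fin n) ℍ[ℝ]) :
    Prop :=
  ∃ ε : ℝ, 0 < ε ∧ ∀ A' : ℕ → Matrix (Fin n) (Fin n) ℍ[ℝ], HypB φ ℓ n A' →
    (∀ k ≤ ℓ, ∀ i j, ‖A' k i j - A k i j‖ < ε) → IsBoundedSystem ℓ n A'

theorem seqC_zero (lam : ℍ[ℝ]) (x : Fin n → ℍ[ℝ]) (k : ℕ) :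
    seqC lam x 0 k = fun a => x a * lam ^ k := by
  induction k with
  | zero => funext a; simp [seqC]
  | succ k ih => funext a; simp [seqC, ih, pow_succ, mul_assoc]

theorem re_mul_comm' (a b : ℍ[ℝ]) : (a * b).re = (b * a).re := by
  simp only [Quaternion.re_mul]; ring

section algebra
variable {β : ℍ[ℝ]}

theorem fixed_of_re (hf : ∀ q, φ q = q + (2 * (β * q).re) • β) {c : ℍ[ℝ]} (hc : (β * c).re = 0) :
    φ c = c := by rw [hf, hc]; simp

theorem re_aux (hβ : β * β = -1) (hβs : star β = -β) (μ e s : ℝ) (T : ℍ[ℝ]) (hs : s = (β * T).re) :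
    (β * (-(T * (μ • β + (e : ℍ[ℝ])) - (μ • β) * T) - (s • β) * (μ • β + (e : ℍ[ℝ])))).re = 0 := by
  have hβre : β.re = 0 := Quaternion.star_eq_neg.1 hβs
  have h1 : (β * T * β).re = -T.re := by
    rw [re_mul_comm', ← mul_assoc, hβ]; simp
  have e1 : β * (-(T * (μ • β + (e : ℍ[ℝ])) - (μ • β) * T) - (s • β) * (μ • β + (e : ℍ[ℝ]))) =
      -(μ • (β * T * β)) - e • (β * T) + μ • (β * β * T) - (s * μ) • (β * β * β)
        - (s * e) • (β * β) := by
    have he : ∀ q : ℍ[ℝ], q * (e : ℍ[ℝ]) = e • q := fun q => by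
      rw [← Quaternion.coe_commutes, Quaternion.coe_mul_eq_smul]
    simp only [mul_sub, mul_neg, mul_add, he, mul_smul_comm, smul_mul_assoc, smul_smul,
      mul_assoc, smul_sub, smul_add]
    rw [mul_comm e s, mul_comm μ s]
    abel
  rw [e1, hβ]
  simp only [Quaternion.re_sub, Quaternion.re_add, Quaternion.re_neg, Quaternion.re_smul, h1,
    neg_mul, one_mul, smul_eq_mul, hβre, Quaternion.re_one]
  rw [← hs]
  ring

end algebra

theorem pert (h : IsNonstandard φ) {β : ℍ[ℝ]} (hβ : β * β = -1) (hβs : star β = -β)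
    (hβφ : φ β = -β) (hf : ∀ q, φ q = q + (2 * (β * q).re) • β) (hℓ : 2 ≤ ℓ)
    (hB : HypB φ ℓ n A) (μ : ℝ) {x : Fin n → ℍ[ℝ]} (hx0 : x ≠ 0)
    (hx : ∑ k ∈ Finset.range (ℓ + 1), (A k).mulVec (fun a => x a * (μ • β) ^ k) = 0)
    (hS : S ℓ (cf φ A x x) (μ • β) (μ • β) = 0) : ¬ IsStablyBounded φ ℓ n A := by
  rintro ⟨ε, hε, hstab⟩
  set α : ℍ[ℝ] := μ • β with hα
  have hαφ : φ α = -α := by rw [hα, map_smul, hβφ, smul_neg]
  have hβre : β.re = 0 := Quaternion.star_eq_neg.1 hβs
  -- the dual vector
  obtain ⟨y, hy⟩ : ∃ y : Fin n → ℍ[ℝ], ∑ a, y a * x a = 1 := by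
    obtain ⟨i, hi⟩ := Function.ne_iff.1 hx0
    refine ⟨fun a => if a = i then (x i)⁻¹ else 0, ?_⟩
    simp only [ite_mul, zero_mul, Finset.sum_ite_eq', Finset.mem_univ, if_true]
    exact inv_mul_cancel₀ hi
  have hyφ : ∑ a, φ (x a) * φ (y a) = 1 := by
    rw [← h.one, ← hy, map_sum]
    exact Finset.sum_congr rfl fun a _ => (h.mul _ _).symm
  have hφc : Continuous φ := LinearMap.continuous_of_finiteDimensional φ
  let lam : ℝ → ℍ[ℝ] := fun e => α + (e : ℍ[ℝ])
  have hlam : Continuous lam := continuous_const.add Quaternion.continuous_coe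
  let T : ℝ → ℍ[ℝ] := fun e => S ℓ (cf φ A x x) α (lam e)
  have hT : Continuous T := by
    apply continuous_finsetSum; intro i _
    apply continuous_finsetSum; intro j _
    split_ifs
    · exact continuous_const.mul (hlam.pow _)
    · exact continuous_const
  let s : ℝ → ℝ := fun e => (β * T e).re
  have hs : Continuous s := Quaternion.continuous_re.comp (continuous_const.mul hT)
  let w : ℝ → Fin n → ℍ[ℝ] := fun e =>
    -∑ k ∈ Finset.range (ℓ + 1), (A k).mulVec (fun a => x a * lam e ^ k)
  have hw : Continuous w := by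
    apply Continuous.neg
    apply continuous_finsetSum; intro k _
    exact Continuous.matrix_mulVec continuous_const
      (continuous_pi fun a => continuous_const.mul (hlam.pow _))
  let w' : ℝ → Fin n → ℍ[ℝ] := fun e a => w e a - φ (y a) * (s e • β) * lam e
  have hw' : ∀ a, Continuous fun e => w' e a := fun a =>
    ((continuous_apply a).comp hw).sub
      ((continuous_const.mul (hs.smul continuous_const)).mul hlam)
  let c : ℝ → ℍ[ℝ] := fun e => ∑ a, φ (x a) * w' e a
  have hc : Continuous c := by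
    apply continuous_finsetSum; intro a _
    exact continuous_const.mul (hw' a)
  let K : ℝ → Matrix (Fin n) (Fin n) ℍ[ℝ] := fun e a b =>
    w' e a * y b + φ (y a) * φ (w' e b) - φ (y a) * c e * y b
  have hK : ∀ a b, Continuous fun e => K e a b := fun a b =>
    (((hw' a).mul continuous_const).add (continuous_const.mul (hφc.comp (hw' b)))).sub
      ((continuous_const.mul hc).mul continuous_const)
  let Q : ℝ → Matrix (Fin n) (Fin n) ℍ[ℝ] := fun e a b => φ (y a) * (s e • β) * y b
  have hQ : ∀ a b, Continuous fun e => Q e a b := fun a b =>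
    (continuous_const.mul (hs.smul continuous_const)).mul continuous_const
  -- values at zero
  have hlam0 : lam 0 = α := by simp [lam]
  have hT0 : T 0 = 0 := by simp only [T, hlam0]; exact hS
  have hs0 : s 0 = 0 := by simp [s, hT0]
  have hw0 : w 0 = 0 := by simp only [w, hlam0]; rw [hx, neg_zero]
  have hw'0 : ∀ a, w' 0 a = 0 := by intro a; simp [w', hw0, hs0]
  have hc0 : c 0 = 0 := by simp [c, hw'0]
  have hK0 : ∀ a b, K 0 a b = 0 := by intro a b; simp [K, hw'0, hc0]
  have hQ0 : ∀ a b, Q 0 a b = 0 := by intro a b; simp [Q, hs0]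
  -- choose e
  have hev : ∀ᶠ e in 𝓝 (0 : ℝ), (∀ a b, ‖K e a b‖ < ε) ∧ ∀ a b, ‖Q e a b‖ < ε := by
    rw [eventually_and, eventually_all, eventually_all]
    constructor
    · intro a
      rw [eventually_all]
      intro b
      have := ((hK a b).norm).tendsto 0
      rw [hK0, norm_zero] at this
      exact this.eventually_lt_const hε
    · intro a
      rw [eventually_all]
      intro b
      have := ((hQ a b).norm).tendsto 0
      rw [hQ0, norm_zero] at this
      exact this.eventually_lt_const hε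
  obtain ⟨e, ⟨hKe, hQe⟩, he⟩ : ∃ e : ℝ, ((∀ a b, ‖K e a b‖ < ε) ∧ ∀ a b, ‖Q e a b‖ < ε) ∧
      0 < e := by
    have h1 : ∀ᶠ e in 𝓝[>] (0 : ℝ), ((∀ a b, ‖K e a b‖ < ε) ∧ ∀ a b, ‖Q e a b‖ < ε) ∧
      0 < e := (hev.filter_mono nhdsWithin_le_nhds).and self_mem_nhdsWithin
    exact h1.exists
  -- `c` is fixed by `φ`
  have hcval : c e = -(T e * lam e - α * T e) - (s e • β) * lam e := by
    have h1 : ∑ a, φ (x a) * w e a = -∑ m ∈ Finset.range (ℓ + 1), cf φ A x x m * lam e ^ m := by
      simp only [w, Pi.neg_apply, Finset.sum_apply, mul_neg, Finset.sum_neg_distrib, Finset.mul_sum]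
      congr 1
      rw [Finset.sum_comm]
      refine Finset.sum_congr rfl fun m _ => ?_
      rw [cf_eq, Finset.sum_mul]
      refine Finset.sum_congr rfl fun a _ => ?_
      simp only [Matrix.mulVec, dotProduct, Finset.mul_sum, Finset.sum_mul, mul_assoc]
    have h2 := telescope ℓ (cf φ A x x) α (lam e)
    rw [sum_cf_left h hB hαφ hx, sub_zero] at h2
    have h3 : ∑ a, φ (x a) * (φ (y a) * (s e • β) * lam e) = (s e • β) * lam e := by
      have : ∀ a, φ (x a) * (φ (y a) * (s e • β) * lam e) =
          (φ (x a) * φ (y a)) * ((s e • β) * lam e) := fun a => by simp only [mul_assoc]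
      simp only [this]
      rw [← Finset.sum_mul, hyφ, one_mul]
    simp only [c, w', mul_sub, Finset.sum_sub_distrib]
    rw [h1, h3, ← h2]
  have hcφ : φ (c e) = c e := by
    apply fixed_of_re hf
    rw [hcval]
    exact re_aux hβ hβs μ e (s e) (T e) rfl
  -- the perturbed system
  let A' : ℕ → Matrix (Fin n) (Fin n) ℍ[ℝ] := fun k =>
    if k = 0 then A 0 + K e else if k = 1 then A 1 + Q e else A k
  have hA'B : HypB φ ℓ n A' := by
    refine ⟨?_, fun k hk => ⟨fun hev => ?_, fun hod => ?_⟩⟩
    · have : A' ℓ = A ℓ := by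
        simp only [A']; rw [if_neg (by omega), if_neg (by omega)]
      rw [this]; exact hB.1
    · rcases Nat.eq_zero_or_pos k with rfl | hk0
      · ext1 a b
        have h1 := congrFun (congrFun ((hB.2 0 hk).1 hev) a) b
        simp only [Matrix.map_apply, Matrix.transpose_apply] at h1
        simp only [A', if_true, Matrix.map_apply, Matrix.transpose_apply, Matrix.add_apply,
          map_add, h1]
        congr 1
        simp only [K, map_add, map_sub, h.mul, h.invol, hcφ, mul_assoc]
        abel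
      · have : A' k = A k := by
          simp only [A']; rw [if_neg (by omega), if_neg]
          rintro rfl
          exact absurd hev (by decide)
        rw [this]; exact (hB.2 k hk).1 hev
    · by_cases hk1 : k = 1
      · subst hk1
        ext1 a b
        have h1 := congrFun (congrFun ((hB.2 1 hk).2 hod) a) b
        simp only [Matrix.map_apply, Matrix.transpose_apply, Matrix.neg_apply] at h1
        simp only [A', one_ne_zero, if_false, if_true, Matrix.map_apply, Matrix.transpose_apply,
          Matrix.add_apply, map_add, h1, Matrix.neg_apply, neg_add]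
        congr 1
        simp only [Q, h.mul, h.invol, map_smul, hβφ, mul_assoc]
        simp
      · have hk0 : k ≠ 0 := by rintro rfl; exact absurd hod (by decide)
        have : A' k = A k := by
          simp only [A']; rw [if_neg hk0, if_neg hk1]
        rw [this]; exact (hB.2 k hk).2 hod
  have hclose : ∀ k ≤ ℓ, ∀ i j, ‖A' k i j - A k i j‖ < ε := by
    intro k _ i j
    by_cases hk0 : k = 0
    · subst hk0
      simp only [A', if_true, Matrix.add_apply, add_sub_cancel_left]
      exact hKe i j
    · by_cases hk1 : k = 1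
      · subst hk1
        simp only [A', one_ne_zero, if_false, if_true, Matrix.add_apply, add_sub_cancel_left]
        exact hQe i j
      · simp only [A', if_neg hk0, if_neg hk1, sub_self, norm_zero]
        exact hε
  have hb := hstab A' hA'B hclose
  -- an unbounded solution
  have hKx : (K e).mulVec x = w' e := by
    funext a
    simp only [Matrix.mulVec, dotProduct, K, sub_mul, add_mul, Finset.sum_add_distrib,
      Finset.sum_sub_distrib]
    have e1 : ∑ b, w' e a * y b * x b = w' e a := by
      simp only [mul_assoc]; rw [← Finset.mul_sum, hy, mul_one]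
    have e2 : ∑ b, φ (y a) * c e * y b * x b = φ (y a) * c e := by
      simp only [mul_assoc]; rw [← Finset.mul_sum, ← Finset.mul_sum, hy, mul_one]
    have e3 : ∑ b, φ (y a) * φ (w' e b) * x b = φ (y a) * c e := by
      simp only [mul_assoc]
      rw [← Finset.mul_sum]
      congr 1
      rw [← hcφ]
      simp only [c, map_sum, h.mul, h.invol]
    rw [e1, e2, e3]; abel
  have hQx : (Q e).mulVec (fun a => x a * lam e) = fun a => φ (y a) * (s e • β) * lam e := by
    funext a
    simp only [Matrix.mulVec, dotProduct, Q]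
    have : ∀ b, φ (y a) * s e • β * y b * (x b * lam e) =
        φ (y a) * (s e • β) * ((y b * x b) * lam e) := fun b => by simp only [mul_assoc]
    simp only [this]
    rw [← Finset.mul_sum, ← Finset.sum_mul, hy, one_mul]
  have hsum : ∑ k ∈ Finset.range (ℓ + 1), (A' k).mulVec (fun a => x a * lam e ^ k) = 0 := by
    obtain ⟨r, rfl⟩ : ∃ r, ℓ = r + 1 := ⟨ℓ - 1, by omega⟩
    have h1 : ∑ k ∈ Finset.range (r + 1 + 1), (A' k).mulVec (fun a => x a * lam e ^ k) =
        ∑ k ∈ Finset.range (r + 1 + 1), (A k).mulVec (fun a => x a * lam e ^ k) +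
          ((K e).mulVec (fun a => x a * lam e ^ 0) + (Q e).mulVec (fun a => x a * lam e ^ 1)) := by
      rw [Finset.sum_range_succ', Finset.sum_range_succ' _ (r + 1), Finset.sum_range_succ',
        Finset.sum_range_succ' _ r]
      have e0 : A' 0 = A 0 + K e := by simp [A']
      have e1 : A' (0 + 1) = A (0 + 1) + Q e := by simp [A']
      have e2 : ∀ k, A' (k + 1 + 1) = A (k + 1 + 1) := by intro k; simp [A']
      simp only [e0, e1, e2, Matrix.add_mulVec]
      simp only [zero_add]
      abel
    rw [h1]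
    simp only [pow_zero, mul_one, pow_one]
    rw [hQx, show (fun a => x a) = x from rfl, hKx]
    have : ∑ k ∈ Finset.range (r + 1 + 1), (A k).mulVec (fun a => x a * lam e ^ k) = -w e := by
      simp only [w, neg_neg]
    rw [this]
    funext a
    simp only [Pi.add_apply, Pi.neg_apply, w', Pi.zero_apply]
    abel
  have hsol : IsSolution ℓ n A' (F (lam e) x 0) := by
    refine isSolution_F ?_ ?_
    · simp only [seqC_zero]; exact hsum
    · simp only [Pi.zero_apply, zero_mul]
      refine Finset.sum_eq_zero fun k _ => ?_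
      exact Matrix.mulVec_zero _
  have hre := re_eq_zero_of_bounded hx0 (hb _ hsol)
  have : (lam e).re = e := by simp [lam, hα, hβre]
  rw [this] at hre
  exact he.ne' hre

end Q8.StabB
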