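import Mathlib

namespace Q8.StabB

open Quaternion

/-- A nonstandard involution of the real quaternions: a real-linear map `φ` with
`φ (x y) = φ y * φ x` and `φ (φ x) = x` which is not the quaternion conjugation. -/
structure IsNonstandard (φ : ℍ[ℝ] →ₗ[ℝ] ℍ[ℝ]) : Prop where
  mul : ∀ x y, φ (x * y) = φ y * φ x
  invol : ∀ x, φ (φ x) = x
  ne_conj : ∃ x, φ x ≠ star x

theorem eq_of_comm {β x : ℍ[ℝ]} (hβ : β * β = -1) (hb0 : star β = -β) (h : x * β = β * x) :
    x = (x.re : ℍ[ℝ]) - (β * x).re • β := by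
  have hy : star (x - (x.re : ℍ[ℝ])) = -(x - (x.re : ℍ[ℝ])) := by
    ext <;> simp
  set y := x - (x.re : ℍ[ℝ]) with hydef
  have hcy : y * β = β * y := by
    rw [hydef, sub_mul, mul_sub, h, Quaternion.coe_commutes]
  have hreal : star (β * y) = β * y := by
    rw [star_mul, hy, hb0, neg_mul_neg, hcy]
  have h1 : β * y = ((β * y).re : ℍ[ℝ]) := Quaternion.star_eq_self.1 hreal
  have h2 : y = -((β * y).re • β) := by
    have : β * (β * y) = -y := by rw [← mul_assoc, hβ]; simp
    rw [h1, ← Quaternion.coe_commutes, Quaternion.coe_mul_eq_smul] at this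
    rw [this, neg_neg]
  have h3 : (β * y).re = (β * x).re := by
    have hbre : β.re = 0 := Quaternion.star_eq_neg.1 hb0
    rw [hydef, mul_sub, Quaternion.re_sub, ← Quaternion.coe_commutes, Quaternion.coe_mul_eq_smul]
    simp [hbre]
  rw [h3] at h2
  have : x = (x.re : ℍ[ℝ]) + y := by rw [hydef]; abel
  conv_lhs => rw [this, h2]
  abel

theorem star_of_sq {β : ℍ[ℝ]} {N : ℝ} (hN : 0 ≤ N) (hβ : β * β = ((-N : ℝ) : ℍ[ℝ])) :
    star β = -β := by
  rw [Quaternion.star_eq_neg]
  have h0 := congrArg QuaternionAlgebra.re hβ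
  have h1 := congrArg QuaternionAlgebra.imI hβ
  have h2 := congrArg QuaternionAlgebra.imJ hβ
  have h3 := congrArg QuaternionAlgebra.imK hβ
  simp at h0 h1 h2 h3
  by_contra hne
  have e1 : β.imI = 0 := by
    have : β.re * β.imI = 0 := by nlinarith
    exact (mul_eq_zero.1 this).resolve_left hne
  have e2 : β.imJ = 0 := by
    have : β.re * β.imJ = 0 := by nlinarith
    exact (mul_eq_zero.1 this).resolve_left hne
  have e3 : β.imK = 0 := by
    have : β.re * β.imK = 0 := by nlinarith
    exact (mul_eq_zero.1 this).resolve_left hne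
  rw [e1, e2, e3] at h0
  have : 0 < β.re * β.re := mul_self_pos.2 hne
  nlinarith

theorem sq_of_star {β : ℍ[ℝ]} (h : star β = -β) : β * β = ((-normSq β : ℝ) : ℍ[ℝ]) := by
  have := Quaternion.star_mul_self (a := β)
  rw [h] at this
  have h2 : β * β = -((normSq β : ℝ) : ℍ[ℝ]) := by rw [← this]; simp
  rw [h2]; simp

namespace IsNonstandard
variable {φ : ℍ[ℝ] →ₗ[ℝ] ℍ[ℝ]} (h : IsNonstandard φ)
include h

theorem one : φ 1 = 1 := by
  have h1 := h.mul (φ 1) 1
  rw [mul_one, h.invol] at h1
  simpa using h1.symm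

theorem coe (r : ℝ) : φ (r : ℍ[ℝ]) = r := by
  have : ((r : ℝ) : ℍ[ℝ]) = r • (1 : ℍ[ℝ]) := by ext <;> simp
  rw [this, map_smul, h.one]

theorem star_of_pure {v : ℍ[ℝ]} (hv : star v = -v) : star (φ v) = -(φ v) := by
  apply star_of_sq (N := normSq v) normSq_nonneg
  rw [← h.mul, sq_of_star hv, h.coe]

/-- The classification of nonstandard involutions. -/
theorem exists_beta : ∃ β : ℍ[ℝ], β * β = -1 ∧ star β = -β ∧ φ β = -β ∧
    (∀ q, φ q = q + (2 * (β * q).re) • β) ∧
    ∃ j : ℍ[ℝ], j * j = -1 ∧ star j = -j ∧ φ j = j ∧ β * j = -(j * β) := by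
  -- normalisation
  have hnorm : ∀ v : ℍ[ℝ], v ≠ 0 → star v = -v →
      ((Real.sqrt (normSq v))⁻¹ • v) * ((Real.sqrt (normSq v))⁻¹ • v) = -1 := by
    intro v hv hs
    have hp : 0 < normSq v := lt_of_le_of_ne normSq_nonneg (by
      intro hh; exact hv (Quaternion.normSq_eq_zero.1 hh.symm))
    rw [smul_mul_smul_comm, sq_of_star hs, ← mul_inv, Real.mul_self_sqrt hp.le]
    ext <;> simp
    field_simp
  have hstarn : ∀ (v : ℍ[ℝ]) (r : ℝ), star v = -v → star (r • v) = -(r • v) := by
    intro v r hv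
    rw [Quaternion.star_smul, hv]; simp
  -- the plus part
  obtain ⟨x, hx⟩ := h.ne_conj
  have hplus : ∃ v : ℍ[ℝ], v ≠ 0 ∧ star v = -v ∧ φ v = v := by
    set y := x - (x.re : ℍ[ℝ]) with hy
    have hys : star y = -y := by rw [hy]; ext <;> simp
    refine ⟨y + φ y, ?_, ?_, ?_⟩
    · intro h0
      apply hx
      have e1 : φ y = -y := by rw [← sub_eq_zero]; rw [← h0]; abel
      have e2 : φ y = φ x - (x.re : ℍ[ℝ]) := by rw [hy, map_sub, h.coe]
      have : φ x = (x.re : ℍ[ℝ]) - y := by
        rw [e1] at e2; rw [← sub_eq_zero] at e2 ⊢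
        rw [← neg_eq_zero, ← e2]; abel
      rw [this, hy]
      ext <;> simp
    · rw [star_add, h.star_of_pure hys, hys]; abel
    · rw [map_add, h.invol]; abel
  have hminus : ∃ v : ℍ[ℝ], v ≠ 0 ∧ star v = -v ∧ φ v = -v := by
    by_contra hcon
    push Not at hcon
    have hid : ∀ v, φ v = v := by
      intro v
      set y := v - (v.re : ℍ[ℝ]) with hy
      have hys : star y = -y := by rw [hy]; ext <;> simp
      have e1 : y - φ y = 0 := by
        by_contra hne
        refine hcon _ hne ?_ ?_
        · rw [star_sub, h.star_of_pure hys, hys]; abel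
        · rw [map_sub, h.invol]; abel
      have e2 : φ y = φ v - (v.re : ℍ[ℝ]) := by rw [hy, map_sub, h.coe]
      have : v = (v.re : ℍ[ℝ]) + y := by rw [hy]; abel
      have e3 : y = φ y := sub_eq_zero.1 e1
      rw [← e3] at e2
      conv_rhs => rw [this, e2]
      abel
    have := h.mul (⟨0, 1, 0, 0⟩ : ℍ[ℝ]) (⟨0, 0, 1, 0⟩ : ℍ[ℝ])
    simp only [hid] at this
    have h4 := congrArg QuaternionAlgebra.imK this
    simp at h4
    norm_num at h4
  obtain ⟨v, hv0, hvs, hvφ⟩ := hplus
  obtain ⟨u, hu0, hus, huφ⟩ := hminus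
  set j := (Real.sqrt (normSq v))⁻¹ • v with hj
  set β := (Real.sqrt (normSq u))⁻¹ • u with hβd
  have hjj : j * j = -1 := hnorm v hv0 hvs
  have hββ : β * β = -1 := hnorm u hu0 hus
  have hjs : star j = -j := hstarn _ _ hvs
  have hβs : star β = -β := hstarn _ _ hus
  have hjφ : φ j = j := by rw [hj, map_smul, hvφ]
  have hβφ : φ β = -β := by rw [hβd, map_smul, huφ]; simp
  clear_value j β
  have hanti : β * j = -(j * β) := by
    have hr : star (β * j + j * β) = β * j + j * β := by
      rw [star_add, star_mul, star_mul, hjs, hβs, neg_mul_neg, neg_mul_neg, add_comm]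
    have hr2 := Quaternion.star_eq_self.1 hr
    have hφ1 : φ (β * j + j * β) = -(β * j + j * β) := by
      rw [map_add, h.mul, h.mul, hjφ, hβφ]; simp only [mul_neg, neg_mul]; abel
    have hφ2 : φ (β * j + j * β) = β * j + j * β := by
      rw [hr2, h.coe]
    rw [hφ2] at hφ1
    have : β * j + j * β = 0 := by
      have h2 : (2 : ℝ) • (β * j + j * β) = 0 := by
        rw [two_smul]
        nth_rewrite 1 [hφ1]
        abel
      exact (smul_eq_zero.1 h2).resolve_left (by norm_num)
    exact eq_neg_of_add_eq_zero_left this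
  refine ⟨β, hββ, hβs, hβφ, ?_, j, hjj, hjs, hjφ, hanti⟩
  -- the formula
  have hβre : β.re = 0 := Quaternion.star_eq_neg.1 hβs
  have hjre : j.re = 0 := Quaternion.star_eq_neg.1 hjs
  let D : ℍ[ℝ] →ₗ[ℝ] ℍ[ℝ] :=
    { toFun := fun q => φ q - q - (2 * (β * q).re) • β
      map_add' := by
        intro a b
        simp only [map_add, mul_add, Quaternion.re_add, add_smul]
        abel
      map_smul' := by
        intro r a
        simp only [map_smul, mul_smul_comm, Quaternion.re_smul, RingHom.id_apply, smul_sub,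
          smul_smul, smul_eq_mul]
        congr 2
        ring }
  have D1 : D 1 = 0 := by
    change φ 1 - 1 - (2 * (β * 1).re) • β = 0
    rw [h.one]; simp [hβre]
  have Dβ : D β = 0 := by
    change φ β - β - (2 * (β * β).re) • β = 0
    rw [hβφ, hββ]
    simp
    rw [two_smul]; abel
  have hβj : (β * j).re = 0 := by
    have h1 : (β * j).re = (j * β).re := by
      simp; ring
    have h2 : (β * j).re = -(j * β).re := by rw [hanti]; simp
    linarith
  have Dj : D j = 0 := by
    change φ j - j - (2 * (β * j).re) • β = 0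
    rw [hjφ, hβj]; simp
  have Dβj : D (β * j) = 0 := by
    change φ (β * j) - β * j - (2 * (β * (β * j)).re) • β = 0
    rw [h.mul, hjφ, hβφ, ← mul_assoc, hββ]
    rw [hanti]
    simp [hjre]
  have key : ∀ q, D q = 0 := by
    intro q
    -- commuting part
    set c := (2⁻¹ : ℝ) • (q - β * q * β) with hc
    set d := (2⁻¹ : ℝ) • (q + β * q * β) with hd
    have hq : q = c + d := by
      rw [hc, hd, ← smul_add]
      have : q - β * q * β + (q + β * q * β) = (2 : ℝ) • q := by rw [two_smul]; abel
      rw [this, smul_smul]; norm_num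
    have hcc : c * β = β * c := by
      have h1 : (q - β * q * β) * β = β * (q - β * q * β) := by
        rw [sub_mul, mul_sub, mul_assoc (β * q) β β, hββ]
        rw [show β * (β * q * β) = (β * β) * q * β by simp only [mul_assoc], hββ]
        simp only [mul_neg, mul_one, neg_mul, one_mul]
        abel
      rw [hc, smul_mul_assoc, h1, mul_smul_comm]
    have hdd : d * β = -(β * d) := by
      have h1 : (q + β * q * β) * β = -(β * (q + β * q * β)) := by
        rw [add_mul, mul_add, mul_assoc (β * q) β β, hββ]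
        rw [show β * (β * q * β) = (β * β) * q * β by simp only [mul_assoc], hββ]
        simp only [mul_neg, mul_one, neg_mul, one_mul]
        abel
      rw [hd, smul_mul_assoc, h1, mul_smul_comm, smul_neg]
    clear_value c d
    have hec : (d * j) * β = β * (d * j) := by
      have : j * β = -(β * j) := by rw [hanti]; simp
      rw [mul_assoc, this, mul_neg, ← mul_assoc, hdd]
      simp [mul_assoc]
    have e1 := eq_of_comm hββ hβs hcc
    have e2 := eq_of_comm hββ hβs hec
    have hd2 : d = -((d * j) * j) := by rw [mul_assoc, hjj]; simp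
    have hDc : D c = 0 := by
      rw [e1, map_sub, map_smul, Dβ, smul_zero, sub_zero]
      have : ((c.re : ℝ) : ℍ[ℝ]) = c.re • (1 : ℍ[ℝ]) := by ext <;> simp
      rw [this, map_smul, D1, smul_zero]
    have hDd : D d = 0 := by
      rw [hd2, e2, sub_mul, smul_mul_assoc, Quaternion.coe_mul_eq_smul, map_neg, map_sub, map_smul,
        map_smul, Dj, Dβj]
      simp
    rw [hq, map_add, hDc, hDd, add_zero]
  intro q
  have := key q
  change φ q - q - (2 * (β * q).re) • β = 0 at this
  rw [sub_sub, sub_eq_zero] at this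
  exact this

end IsNonstandard

end Q8.StabB
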